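import Pool.Agent.W795.TQ.PStm
import Pool.Agent.H459R3.NS.Lp

/-!
Project TQ, part BD: bound of the trilinear form.
-/

set_option autoImplicit false

open MeasureTheory Set H459R3.NS Filter Topology
open scoped ContDiff ENNReal

namespace Pool.Agent.W806.TQ

open Pool.Agent.W795.TQ

theorem sobolev6 : ∃ C : ℝ, 0 ≤ C ∧ ∀ g : V → ℝ, SP g → ∫ x in cube, g x = 0 →
    eLpNorm g 6 (volume.restrict cube) ≤ ENNReal.ofReal (C * grd g) := by
  obtain ⟨C, hC0, hC⟩ := sobolev
  refine ⟨C * Real.sqrt 2, by positivity, fun g hg hg0 => ?_⟩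
  refine (hC g hg).trans (ENNReal.ofReal_le_ofReal ?_)
  rw [mul_assoc]
  refine mul_le_mul_of_nonneg_left ?_ hC0
  rw [← grd_sq, ← nrm_sq]
  have hpo := poincare hg hg0
  calc Real.sqrt (grd g ^ 2 + nrm g ^ 2) ≤ Real.sqrt (2 * grd g ^ 2) := by
        refine Real.sqrt_le_sqrt ?_
        have := pow_le_pow_left₀ (nrm_nonneg g) hpo 2
        linarith
    _ = Real.sqrt 2 * grd g := by
        rw [Real.sqrt_mul (by norm_num), Real.sqrt_sq (grd_nonneg g)]

theorem th_six : th 6 = 1 / 2 := by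
  unfold th
  rw [ENNReal.toReal_inv]
  norm_num

/-- the multiplier estimate -/
theorem mult : ∃ K : ℝ, 0 ≤ K ∧ ∀ s f g : V → ℝ, SP s → ∫ x in cube, s x = 0 → SP f → SP g →
    ∫ x in cube, g x = 0 → |∫ x in cube, s x * (f x * g x)| ≤
      K * grd s * (nrm f * (Real.sqrt (nrm g) * Real.sqrt (grd g))) := by
  obtain ⟨C1, hC10, hC1⟩ := mul_of_Lp (p := 6) (by norm_num)
  obtain ⟨C2, hC20, hC2⟩ := sobolev6
  refine ⟨C1 * C2, by positivity, fun s f g hs hs0 hf hg hg0 => ?_⟩
  have h1 := hC1 s (C2 * grd s) hs.cont (mul_nonneg hC20 (grd_nonneg _)) (hC2 s hs hs0) f g hf hg hg0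
  rw [th_six, show (1 - 1 / 2 : ℝ) = 1 / 2 by norm_num, ← Real.sqrt_eq_rpow,
    ← Real.sqrt_eq_rpow] at h1
  calc _ ≤ _ := h1
    _ = _ := by ring

theorem sp_const (c : ℝ) : SP (fun _ : V => c) where
  smooth := contDiff_const
  per := fun _ _ => rfl

theorem sp_sub {f g : V → ℝ} (hf : SP f) (hg : SP g) : SP (fun x => f x - g x) where
  smooth := hf.smooth.sub hg.smooth
  per := fun i x => by
    show f _ - g _ = f x - g x
    rw [hf.per i x, hg.per i x]

theorem pd_sub {f g : V → ℝ} (hf : SP f) (hg : SP g) (j : Fin 3) (x : V) :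
    pd j (fun y => f y - g y) x = pd j f x - pd j g x := by
  unfold pd
  have h : fderiv ℝ (fun y => f y - g y) x = fderiv ℝ f x - fderiv ℝ g x :=
    fderiv_fun_sub (hf.diff x) (hg.diff x)
  rw [h]
  rfl

theorem pd_sub_const {f : V → ℝ} (c : ℝ) (j : Fin 3) (x : V) :
    pd j (fun y => f y - c) x = pd j f x := by
  unfold pd
  rw [fderiv_sub_const]

theorem young4 {a y : ℝ} (ha : 0 ≤ a) (hy : 0 ≤ y) :
    a ^ 3 * y ≤ a ^ 4 / 64 + 64 ^ 3 * y ^ 4 := by
  rcases le_total y (a / 64) with h | h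
  · have h1 : a ^ 3 * y ≤ a ^ 3 * (a / 64) := by gcongr
    have h2 : 0 ≤ 64 ^ 3 * y ^ 4 := by positivity
    calc a ^ 3 * y ≤ a ^ 3 * (a / 64) := h1
      _ = a ^ 4 / 64 := by ring
      _ ≤ _ := by linarith
  · have h1 : a ≤ 64 * y := by linarith
    have h2 : a ^ 3 * y ≤ (64 * y) ^ 3 * y := by gcongr
    have h3 : 0 ≤ a ^ 4 / 64 := by positivity
    calc a ^ 3 * y ≤ (64 * y) ^ 3 * y := h2
      _ = 64 ^ 3 * y ^ 4 := by ring
      _ ≤ _ := by linarith

theorem ens_eq (v : V → V) : enstrophy v = ∑ i, grd (fun y => v y i) ^ 2 := by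
  unfold enstrophy
  exact Finset.sum_congr rfl fun i _ => (grd_sq _).symm

theorem grd_le (v : V → V) (i : Fin 3) : grd (fun y => v y i) ≤ Real.sqrt (enstrophy v) := by
  apply Real.le_sqrt_of_sq_le
  rw [ens_eq]
  exact Finset.single_le_sum (f := fun i => grd (fun y => v y i) ^ 2) (fun _ _ => sq_nonneg _)
    (Finset.mem_univ i)

theorem nrm_pd_le (v : V → V) (i j : Fin 3) :
    nrm (pd j (fun y => v y i)) ≤ Real.sqrt (enstrophy v) := by
  refine le_trans ?_ (grd_le v i)
  unfold nrm grd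
  apply Real.sqrt_le_sqrt
  exact Finset.single_le_sum (f := fun j => ∫ x in cube, pd j (fun y => v y i) x ^ 2)
    (fun _ _ => integral_nonneg fun _ => sq_nonneg _) (Finset.mem_univ j)

theorem nrm_le (v : V → V) (i : Fin 3) : nrm (fun y => v y i) ≤ Real.sqrt (energy v) := by
  unfold nrm energy
  apply Real.sqrt_le_sqrt
  exact Finset.single_le_sum (f := fun i => ∫ x in cube, v x i ^ 2)
    (fun _ _ => integral_nonneg fun _ => sq_nonneg _) (Finset.mem_univ i)

theorem grd_sub_le {f g : V → ℝ} (hf : SP f) (hg : SP g) :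
    grd (fun x => f x - g x) ≤ 2 * (grd f + grd g) := by
  have h1 : grd (fun x => f x - g x) ^ 2 ≤ 2 * grd f ^ 2 + 2 * grd g ^ 2 := by
    rw [grd_sq, grd_sq, grd_sq, Finset.mul_sum, Finset.mul_sum, ← Finset.sum_add_distrib]
    refine Finset.sum_le_sum fun j _ => ?_
    have i1 : IntegrableOn (fun x => 2 * pd j f x ^ 2) cube :=
      integrableOn_cube (continuous_const.mul ((hf.pd j).cont.pow 2))
    have i2 : IntegrableOn (fun x => 2 * pd j g x ^ 2) cube :=
      integrableOn_cube (continuous_const.mul ((hg.pd j).cont.pow 2))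
    have i3 : IntegrableOn (fun x => 2 * pd j f x ^ 2 + 2 * pd j g x ^ 2) cube := i1.add i2
    rw [← integral_const_mul, ← integral_const_mul, ← integral_add i1 i2]
    refine setIntegral_mono_on (integrableOn_cube (((sp_sub hf hg).pd j).cont.pow 2))
      i3 measurableSet_Icc fun x _ => ?_
    rw [pd_sub hf hg]
    nlinarith [sq_nonneg (pd j f x + pd j g x)]
  have h2 : grd (fun x => f x - g x) ^ 2 ≤ (2 * (grd f + grd g)) ^ 2 := by
    nlinarith [grd_nonneg f, grd_nonneg g, mul_nonneg (grd_nonneg f) (grd_nonneg g)]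
  exact (pow_le_pow_iff_left₀ (grd_nonneg _) (by
    have := grd_nonneg f
    have := grd_nonneg g
    positivity) two_ne_zero).1 h2

theorem proof : S_bd := by
  obtain ⟨K, hK0, hK⟩ := mult
  refine ⟨1 + 9 + 64 ^ 3 * (9 * K) ^ 4, by positivity, fun u v m hu hv hdu hdv hmean hm => ?_⟩
  set G : ℝ := Real.sqrt (enstrophy v) with hG
  set Gu : ℝ := Real.sqrt (enstrophy u) with hGu
  set e : V → V := fun x => u x - v x with he
  set E : ℝ := Real.sqrt (energy e) with hE
  have hG0 : 0 ≤ G := Real.sqrt_nonneg _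
  have hGu0 : 0 ≤ Gu := Real.sqrt_nonneg _
  have hE0 : 0 ≤ E := Real.sqrt_nonneg _
  have hG2 : G ^ 2 = enstrophy v := Real.sq_sqrt (enstrophy_nonneg v)
  have hGu2 : Gu ^ 2 = enstrophy u := Real.sq_sqrt (enstrophy_nonneg u)
  have hE2 : E ^ 2 = energy e := Real.sq_sqrt (energy_nonneg e)
  have hm0 : 0 ≤ m := (abs_nonneg _).trans (hm 0)
  set c : Fin 3 → ℝ := fun j => ∫ x in cube, v x j with hc
  have hcint : ∀ a : ℝ, ∫ _x in cube, a = a := by
    intro a
    rw [setIntegral_const, Measure.real, volume_cube, ENNReal.toReal_one, one_smul]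
  have hei : ∀ i, SP (fun y => e y i) := fun i => sp_sub (hu i) (hv i)
  have hem : ∀ i, ∫ x in cube, e x i = 0 := by
    intro i
    show ∫ x in cube, (u x i - v x i) = 0
    rw [integral_sub (hu i).int (hv i).int, hmean i, sub_self]
  have hw : ∀ j, SP (fun y => u y j - c j) := fun j => sp_sub (hu j) (sp_const (c j))
  have hwm : ∀ j, ∫ x in cube, (u x j - c j) = 0 := by
    intro j
    rw [integral_sub (hu j).int (sp_const (c j)).int, hcint, hmean j, sub_self]
  have hgw : ∀ j, grd (fun y => u y j - c j) = grd (fun y => u y j) := by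
    intro j
    unfold grd
    congr 1
    refine Finset.sum_congr rfl fun k _ => ?_
    congr 1
    funext x
    rw [pd_sub_const]
  -- the decomposition
  have hdec : tr u v u = (∑ i, ∑ j, ∫ x in cube, (u x j - c j) *
      (pd j (fun y => v y i) x * e x i)) +
      ∑ i, ∑ j, c j * ∫ x in cube, pd j (fun y => v y i) x * e x i := by
    have h1 : ∀ i j, ∫ x in cube, u x j * (pd j (fun y => v y i) x * u x i) =
        (∫ x in cube, (u x j - c j) * (pd j (fun y => v y i) x * e x i)) +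
        (c j * ∫ x in cube, pd j (fun y => v y i) x * e x i) +
        ∫ x in cube, u x j * (v x i * pd j (fun y => v y i) x) := by
      intro i j
      rw [← integral_const_mul, ← integral_add
        ((hw j).mul (((hv i).pd j).mul (hei i))).int
        ((sp_const (c j)).mul (((hv i).pd j).mul (hei i))).int, ← integral_add
        (((hw j).mul (((hv i).pd j).mul (hei i))).add
          ((sp_const (c j)).mul (((hv i).pd j).mul (hei i)))).int
        ((hu j).mul ((hv i).mul ((hv i).pd j))).int]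
      congr 1
      funext x
      show u x j * (pd j (fun y => v y i) x * u x i) = (u x j - c j) *
        (pd j (fun y => v y i) x * (u x i - v x i)) + c j * (pd j (fun y => v y i) x *
          (u x i - v x i)) + u x j * (v x i * pd j (fun y => v y i) x)
      ring
    unfold tr
    simp_rw [h1, Finset.sum_add_distrib]
    have h2 : ∀ i, ∑ j, ∫ x in cube, u x j * (v x i * pd j (fun y => v y i) x) = 0 := fun i =>
      transport_zero (v := fun j y => u y j) hu hdu (hv i)
    simp_rw [h2, Finset.sum_const_zero, add_zero]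
  set X : ℝ := 2 * (Gu + G) with hX
  have hX0 : 0 ≤ X := by positivity
  set a : ℝ := Real.sqrt X with ha
  have ha0 : 0 ≤ a := Real.sqrt_nonneg _
  have ha2 : a ^ 2 = X := Real.sq_sqrt hX0
  set b : ℝ := Real.sqrt E with hb
  have hb0 : 0 ≤ b := Real.sqrt_nonneg _
  have hb2 : b ^ 2 = E := Real.sq_sqrt hE0
  have hGuX : Gu ≤ a ^ 2 := by rw [ha2, hX]; linarith
  -- first part
  have hp1 : ∀ i j, |∫ x in cube, (u x j - c j) * (pd j (fun y => v y i) x * e x i)| ≤
      K * (a ^ 3 * (G * b)) := by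
    intro i j
    have h1 := hK (fun y => u y j - c j) (pd j (fun y => v y i)) (fun y => e y i) (hw j) (hwm j)
      ((hv i).pd j) (hei i) (hem i)
    rw [hgw] at h1
    refine h1.trans ?_
    have h2 : grd (fun y => u y j) ≤ a ^ 2 := (grd_le u j).trans hGuX
    have h3 : nrm (pd j (fun y => v y i)) ≤ G := nrm_pd_le v i j
    have h4 : Real.sqrt (nrm (fun y => e y i)) ≤ b := Real.sqrt_le_sqrt (nrm_le e i)
    have h5 : Real.sqrt (grd (fun y => e y i)) ≤ a := by
      apply Real.sqrt_le_sqrt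
      refine (grd_sub_le (hu i) (hv i)).trans ?_
      have h6 := grd_le u i
      have h7 := grd_le v i
      rw [hX]
      linarith
    have h8 := nrm_nonneg (pd j (fun y => v y i))
    have h9 := grd_nonneg (fun y => u y j)
    calc K * grd (fun y => u y j) * (nrm (pd j (fun y => v y i)) *
          (Real.sqrt (nrm (fun y => e y i)) * Real.sqrt (grd (fun y => e y i))))
        ≤ K * a ^ 2 * (G * (b * a)) := by gcongr
      _ = K * (a ^ 3 * (G * b)) := by ring
  have hp2 : ∀ i j, |c j * ∫ x in cube, pd j (fun y => v y i) x * e x i| ≤ m * (G * E) := by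
    intro i j
    rw [abs_mul]
    have h1 := abs_int_mul_le ((hv i).pd j).cont (hei i).cont
    have h3 : nrm (pd j (fun y => v y i)) ≤ G := nrm_pd_le v i j
    have h4 : nrm (fun y => e y i) ≤ E := nrm_le e i
    have h5 := hm j
    have h6 := nrm_nonneg (fun y => e y i)
    calc |c j| * |∫ x in cube, pd j (fun y => v y i) x * e x i| ≤
        m * (nrm (pd j (fun y => v y i)) * nrm (fun y => e y i)) := by gcongr
      _ ≤ m * (G * E) := by gcongr
  have hsum9 : ∀ (F : Fin 3 → Fin 3 → ℝ) (B : ℝ), (∀ i j, |F i j| ≤ B) →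
      |∑ i, ∑ j, F i j| ≤ 9 * B := by
    intro F B h
    refine (Finset.abs_sum_le_sum_abs _ _).trans ?_
    have h1 : ∀ i ∈ Finset.univ, |∑ j, F i j| ≤ 3 * B := by
      intro i _
      refine (Finset.abs_sum_le_sum_abs _ _).trans ?_
      refine (Finset.sum_le_sum fun j _ => h i j).trans (le_of_eq ?_)
      simp
    refine (Finset.sum_le_sum h1).trans (le_of_eq ?_)
    simp
    ring
  have ht : |tr u v u| ≤ 9 * (K * (a ^ 3 * (G * b))) + 9 * (m * (G * E)) := by
    rw [hdec]
    exact (abs_add_le _ _).trans (add_le_add (hsum9 _ _ hp1) (hsum9 _ _ hp2))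
  have hy := young4 (a := a) (y := 9 * K * (G * b)) ha0 (by positivity)
  have e1 : 9 * (K * (a ^ 3 * (G * b))) = a ^ 3 * (9 * K * (G * b)) := by ring
  have e2 : a ^ 4 = X ^ 2 := by rw [← ha2]; ring
  have e3 : (9 * K * (G * b)) ^ 4 = (9 * K) ^ 4 * ((enstrophy v) ^ 2 * energy e) := by
    rw [← hG2, ← hE2, ← hb2]
    ring
  have e4 : X ^ 2 ≤ 8 * enstrophy u + 8 * enstrophy v := by
    rw [hX, ← hG2, ← hGu2]
    nlinarith [sq_nonneg (Gu - G)]
  have e5 : 9 * (m * (G * E)) ≤ 9 * (enstrophy v + m ^ 2 * energy e) := by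
    rw [← hG2, ← hE2]
    nlinarith [sq_nonneg (G - m * E), sq_nonneg G, sq_nonneg (m * E)]
  have hns := enstrophy_nonneg u
  have hns' := enstrophy_nonneg v
  have hne := energy_nonneg e
  rw [e1] at ht
  rw [e2, e3] at hy
  have h6 : |tr u v u| ≤ (8 * enstrophy u + 8 * enstrophy v) / 64 +
      64 ^ 3 * ((9 * K) ^ 4 * ((enstrophy v) ^ 2 * energy e)) +
      9 * (enstrophy v + m ^ 2 * energy e) := by
    linarith
  refine h6.trans ?_
  set Q : ℝ := (64 : ℝ) ^ 3 * (9 * K) ^ 4 with hQ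
  have hQ0 : 0 ≤ Q := by positivity
  have t1 : 0 ≤ Q * enstrophy v := by positivity
  have t2 : 0 ≤ Q * (m ^ 2 * energy e) := by positivity
  have t3 : 0 ≤ (enstrophy v) ^ 2 * energy e := by positivity
  have t4 : 0 ≤ m ^ 2 * energy e := by positivity
  have e7 : 64 ^ 3 * ((9 * K) ^ 4 * ((enstrophy v) ^ 2 * energy e)) =
      Q * ((enstrophy v) ^ 2 * energy e) := by rw [hQ]; ring
  rw [e7]
  have e8 : (1 + 9 + Q) * (enstrophy v + ((enstrophy v) ^ 2 + m ^ 2) * energy e) =
      10 * enstrophy v + 10 * ((enstrophy v) ^ 2 * energy e) + 10 * (m ^ 2 * energy e) +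
      Q * enstrophy v + Q * ((enstrophy v) ^ 2 * energy e) + Q * (m ^ 2 * energy e) := by ring
  rw [e8]
  linarith

end Pool.Agent.W806.TQ
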